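import Pool.Agent.Helper53.Engel.Profile

/-!
# Genericity of the parameters (task H of MP_ac6cd3_gt)

The displacements along the loops in the plugs form a set of Hausdorff dimension at most one, which
does not contain `0`. Hence almost every strength and direction is generic.
-/

set_option autoImplicit false

open Topology Real Filter Set MeasureTheory
open scoped ContDiff NNReal ENNReal

noncomputable section

namespace Pool.Agent.Helper37.Engel

open Pool.Agent.Helper53.Engel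

/-! ### a scalar linear equation -/

lemma lin_ode {h a : ℝ → ℝ} (ha : Continuous a) (hh : ∀ s, HasDerivAt h (a s * h s) s) (s : ℝ) :
    h s = h 0 * exp (∫ u in (0 : ℝ)..s, a u) := by
  have hA : ∀ s, HasDerivAt (fun s => ∫ u in (0 : ℝ)..s, a u) (a s) s := fun s =>
    intervalIntegral.integral_hasDerivAt_right (ha.intervalIntegrable _ _)
      (ha.stronglyMeasurableAtFilter _ _) ha.continuousAt
  have hc : ∀ s, HasDerivAt (fun s => h s * exp (-(∫ u in (0 : ℝ)..s, a u))) 0 s := by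
    intro s
    have := (hh s).mul ((hA s).neg.exp)
    refine this.congr_deriv ?_
    ring
  have h1 := is_const_of_deriv_eq_zero (fun s => (hc s).differentiableAt)
    (fun s => (hc s).deriv) s 0
  simp only [intervalIntegral.integral_same, neg_zero, exp_zero, mul_one] at h1
  rw [← h1, mul_assoc, ← exp_add]
  simp

/-! ### the planar field -/

lemma Yh_contDiff : ContDiff ℝ ∞ Yh := by
  unfold Yh
  have h1 : ContDiff ℝ ∞ (fun v : R2 => v.1) := contDiff_fst
  have h2 : ContDiff ℝ ∞ (fun v : R2 => v.2) := contDiff_snd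
  have h3 : ContDiff ℝ ∞ (fun v : R2 => v.1 ^ 2 + v.2 ^ 2) := (h1.pow 2).add (h2.pow 2)
  have h4 : ContDiff ℝ ∞ (fun v : R2 => ff (v.1 ^ 2 + v.2 ^ 2)) := ff_contDiff.comp h3
  have h5 : ContDiff ℝ ∞ (fun v : R2 => deriv ff (v.1 ^ 2 + v.2 ^ 2)) :=
    deriv_ff_contDiff.comp h3
  exact (((contDiff_const.mul h1).mul h2).mul h5).neg.prodMk
    (h4.add ((contDiff_const.mul (h1.pow 2)).mul h5))

lemma Yh_core {v : R2} (h : v.1 ^ 2 + v.2 ^ 2 ≤ 6 / 5) :
    Yh v = (-(2 * v.1 * v.2 * ep), ep * (v.1 ^ 2 + v.2 ^ 2 - 1) + 2 * v.1 ^ 2 * ep) := by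
  unfold Yh
  rw [ff_core _ h, deriv_ff_core _ h]

/-! ### facts on loops -/

section loop

variable {c : ℝ → R2} {T : ℝ} (h : Loop c T)

include h

lemma hfst (s : ℝ) : HasDerivAt (fun s => (c s).1) (Yh (c s)).1 s := by
  have := (hasFDerivAt_fst (𝕜 := ℝ) (E := ℝ) (F := ℝ) (p := c s)).comp_hasDerivAt s (h.deriv s)
  exact this

lemma hsnd (s : ℝ) : HasDerivAt (fun s => (c s).2) (Yh (c s)).2 s := by
  have := (hasFDerivAt_snd (𝕜 := ℝ) (E := ℝ) (F := ℝ) (p := c s)).comp_hasDerivAt s (h.deriv s)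
  exact this

lemma hcont : Continuous c := continuous_iff_continuousAt.2 fun s => (h.deriv s).continuousAt

lemma hcont1 : Continuous fun s => (c s).1 := continuous_fst.comp (hcont h)

lemma hcont2 : Continuous fun s => (c s).2 := continuous_snd.comp (hcont h)

lemma hcontq : Continuous fun s => (c s).1 ^ 2 + (c s).2 ^ 2 :=
  ((hcont1 h).pow 2).add ((hcont2 h).pow 2)

lemma hq (s : ℝ) : HasDerivAt (fun s => (c s).1 ^ 2 + (c s).2 ^ 2)
    (2 * (c s).2 * ff ((c s).1 ^ 2 + (c s).2 ^ 2)) s := by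
  have h1 := ((hfst h s).pow 2).add ((hsnd h s).pow 2)
  refine h1.congr_deriv ?_
  simp only [Yh]
  ring

/-- the open unit disc is invariant -/
lemma lt_one (s : ℝ) : (c s).1 ^ 2 + (c s).2 ^ 2 < 1 := by
  set a : ℝ → ℝ := fun s => deriv ff ((c s).1 ^ 2 + (c s).2 ^ 2) * (2 * (c s).2) with ha
  have hac : Continuous a :=
    (deriv_ff_contDiff.continuous.comp (hcontq h)).mul (continuous_const.mul (hcont2 h))
  have h1 : ∀ s, HasDerivAt (fun s => ff ((c s).1 ^ 2 + (c s).2 ^ 2))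
      (a s * ff ((c s).1 ^ 2 + (c s).2 ^ 2)) s := by
    intro s
    have h2 : HasDerivAt ff (deriv ff ((c s).1 ^ 2 + (c s).2 ^ 2)) ((c s).1 ^ 2 + (c s).2 ^ 2) :=
      (ff_differentiable _).hasDerivAt
    have h3 := h2.comp s (hq h s)
    refine h3.congr_deriv ?_
    simp only [ha]
    ring
  have h2 := lin_ode hac h1 s
  have h3 : ff ((c 0).1 ^ 2 + (c 0).2 ^ 2) < 0 := by
    apply ff_neg
    rw [h.axis]
    have := h.lt
    linarith
  have h4 : ff ((c s).1 ^ 2 + (c s).2 ^ 2) < 0 := by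
    rw [h2]
    exact mul_neg_of_neg_of_pos h3 (exp_pos _)
  by_contra hcon
  push Not at hcon
  rcases hcon.lt_or_eq with h5 | h5
  · linarith [ff_pos _ h5]
  · rw [← h5, ff_one] at h4
    exact lt_irrefl _ h4

lemma Yh_loop (s : ℝ) : Yh (c s) = (-(2 * (c s).1 * (c s).2 * ep),
    ep * ((c s).1 ^ 2 + (c s).2 ^ 2 - 1) + 2 * (c s).1 ^ 2 * ep) :=
  Yh_core (by linarith [lt_one h s])

lemma fst_eq (s : ℝ) : ∃ e > 0, (c s).1 = (c 0).1 * e := by
  have h1 : ∀ s, HasDerivAt (fun s => (c s).1) ((-(2 * (c s).2 * ep)) * (c s).1) s := by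
    intro s
    refine (hfst h s).congr_deriv ?_
    rw [Yh_loop h s]
    ring
  have h2 : Continuous fun s => -(2 * (c s).2 * ep) :=
    ((continuous_const.mul (hcont2 h)).mul continuous_const).neg
  exact ⟨_, exp_pos _, lin_ode h2 h1 s⟩

lemma fst_pos (s : ℝ) : 0 < (c 0).1 * (c s).1 := by
  obtain ⟨e, he, h1⟩ := fst_eq h s
  rw [h1]
  have h2 : 0 < (c 0).1 * (c 0).1 := mul_self_pos.2 h.ne
  nlinarith [mul_pos h2 he]

lemma conserved (s : ℝ) : (c s).1 * (1 - ((c s).1 ^ 2 + (c s).2 ^ 2)) =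
    (c 0).1 * (1 - (c 0).1 ^ 2) := by
  have h1 : ∀ s, HasDerivAt (fun s => (c s).1 * (1 - ((c s).1 ^ 2 + (c s).2 ^ 2))) 0 s := by
    intro s
    refine ((hfst h s).mul ((hq h s).const_sub 1)).congr_deriv ?_
    rw [Yh_loop h s, ff_core _ (by linarith [lt_one h s])]
    ring
  have h2 := is_const_of_deriv_eq_zero (fun s => (h1 s).differentiableAt)
    (fun s => (h1 s).deriv) s 0
  rw [h2, h.axis]
  ring

lemma mem_ball (s : ℝ) : c s ∈ Metric.closedBall (0 : R2) 1 := by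
  rw [mem_closedBall_zero_iff, Prod.norm_def, max_le_iff, Real.norm_eq_abs, Real.norm_eq_abs]
  have h1 := lt_one h s
  constructor
  · exact abs_le_one_iff_mul_self_le_one.2 (by nlinarith [sq_nonneg (c s).2])
  · exact abs_le_one_iff_mul_self_le_one.2 (by nlinarith [sq_nonneg (c s).1])

lemma snd_zero_of_extr {t : ℝ} (ht : t ∈ Icc 0 T)
    (he : t ∈ Ioo 0 T → IsLocalExtr (fun s => (c 0).1 * (c s).1) t) : (c t).2 = 0 := by
  rcases ht.1.eq_or_lt with h0 | h0
  · rw [← h0]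
    exact h.axis
  rcases ht.2.eq_or_lt with h1 | h1
  · rw [h1, h.closed]
    exact h.axis
  have h2 := he ⟨h0, h1⟩
  have h3 := h2.hasDerivAt_eq_zero ((hfst h t).const_mul (c 0).1)
  rw [Yh_loop h t] at h3
  have h4 := fst_pos h t
  have h5 : ((c 0).1 * (c t).1) * (c t).2 = 0 := by
    have : (2 * ep) * (((c 0).1 * (c t).1) * (c t).2) = 0 := by
      simp only at h3
      linarith
    rcases mul_eq_zero.1 this with h6 | h6
    · exfalso
      unfold ep at h6
      norm_num at h6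
    · exact h6
  rcases mul_eq_zero.1 h5 with h6 | h6
  · exact absurd h6 h4.ne'
  · exact h6

lemma crossing : ∃ t ∈ Icc 0 T, (c t).1 ^ 2 + (c t).2 ^ 2 = 1 / 3 := by
  have hT := h.pos
  have hc : ContinuousOn (fun s => (c 0).1 * (c s).1) (Icc 0 T) :=
    (continuous_const.mul (hcont1 h)).continuousOn
  obtain ⟨t1, ht1, hm1⟩ := isCompact_Icc.exists_isMinOn (nonempty_Icc.2 hT.le) hc
  obtain ⟨t2, ht2, hm2⟩ := isCompact_Icc.exists_isMaxOn (nonempty_Icc.2 hT.le) hc
  have z1 : (c t1).2 = 0 := snd_zero_of_extr h ht1 fun hi =>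
    Or.inl (hm1.isLocalMin (Icc_mem_nhds hi.1 hi.2))
  have z2 : (c t2).2 = 0 := snd_zero_of_extr h ht2 fun hi =>
    Or.inr (hm2.isLocalMax (Icc_mem_nhds hi.1 hi.2))
  have k1 := conserved h t1
  have k2 := conserved h t2
  rw [z1] at k1
  rw [z2] at k2
  set x := (c 0).1 with hx
  have p1 : 0 < x * (c t1).1 := fst_pos h t1
  have p2 : 0 < x * (c t2).1 := fst_pos h t2
  have le12 : x * (c t1).1 ≤ x * (c t2).1 := hm1 ht2
  have hx0 : x ≠ 0 := h.ne
  rcases le12.eq_or_lt with heq | hlt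
  · -- the first coordinate is constant
    have hconst : ∀ s ∈ Icc 0 T, (c s).1 = (c t1).1 := by
      intro s hs
      have a1 : x * (c t1).1 ≤ x * (c s).1 := hm1 hs
      have a2 : x * (c s).1 ≤ x * (c t2).1 := hm2 hs
      have a3 : x * (c s).1 = x * (c t1).1 := le_antisymm (by linarith) a1
      exact mul_left_cancel₀ hx0 a3
    have hz : ∀ s ∈ Ioo 0 T, (c s).2 = 0 := by
      intro s hs
      refine snd_zero_of_extr h ⟨hs.1.le, hs.2.le⟩ fun hi => Or.inl ?_
      filter_upwards [Icc_mem_nhds hi.1 hi.2] with u hu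
      rw [hconst u hu, hconst s ⟨hs.1.le, hs.2.le⟩]
    have hmid : T / 2 ∈ Ioo 0 T := ⟨by linarith, by linarith⟩
    have hd : HasDerivAt (fun s => (c s).2) 0 (T / 2) := by
      refine (hasDerivAt_const (T / 2) (0 : ℝ)).congr_of_eventuallyEq ?_
      filter_upwards [Ioo_mem_nhds hmid.1 hmid.2] with u hu
      exact hz u hu
    have hd2 := hd.unique (hsnd h (T / 2))
    rw [Yh_loop h (T / 2), hz _ hmid] at hd2
    refine ⟨T / 2, ⟨hmid.1.le, hmid.2.le⟩, ?_⟩
    rw [hz _ hmid]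
    have : ep * (3 * (c (T / 2)).1 ^ 2 - 1) = 0 := by
      simp only at hd2
      linarith
    rcases mul_eq_zero.1 this with h6 | h6
    · exfalso
      unfold ep at h6
      norm_num at h6
    · linarith
  · -- the crossing
    set a := (c t1).1
    set b := (c t2).1
    have e1 : a * (1 - a ^ 2) = b * (1 - b ^ 2) := by
      have e2 : a * (1 - (a ^ 2 + 0 ^ 2)) = b * (1 - (b ^ 2 + 0 ^ 2)) := by rw [k1, k2]
      linarith
    have hab : b - a ≠ 0 := by
      intro h0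
      have : a = b := by linarith
      rw [this] at hlt
      exact lt_irrefl _ hlt
    have e3 : a ^ 2 + a * b + b ^ 2 = 1 := by
      have : (b - a) * (a ^ 2 + a * b + b ^ 2 - 1) = 0 := by linarith [e1]
      rcases mul_eq_zero.1 this with h6 | h6
      · exact absurd h6 hab
      · linarith
    have hx2 : 0 < x ^ 2 := by positivity
    have s1 : a ^ 2 < a * b := by
      have : (x * a) * (x * a) < (x * a) * (x * b) := mul_lt_mul_of_pos_left hlt p1
      have : x ^ 2 * a ^ 2 < x ^ 2 * (a * b) := by linarith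
      exact lt_of_mul_lt_mul_left this hx2.le
    have s2 : a * b < b ^ 2 := by
      have : (x * b) * (x * a) < (x * b) * (x * b) := mul_lt_mul_of_pos_left hlt p2
      have : x ^ 2 * (a * b) < x ^ 2 * b ^ 2 := by linarith
      exact lt_of_mul_lt_mul_left this hx2.le
    have hpre : IsPreconnected (Icc 0 T) := isPreconnected_Icc
    have := hpre.intermediate_value ht1 ht2 (hcontq h).continuousOn
    have hmem : (1 / 3 : ℝ) ∈ Icc ((c t1).1 ^ 2 + (c t1).2 ^ 2) ((c t2).1 ^ 2 + (c t2).2 ^ 2) := by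
      rw [z1, z2]
      constructor <;> linarith
    obtain ⟨t, ht, ht'⟩ := this hmem
    exact ⟨t, ht, ht'⟩

lemma second_ne : (∫ s in (0 : ℝ)..T, 2 * ep * (c s).1 * deriv GG ((c s).1 ^ 2 + (c s).2 ^ 2)) ≠ 0 := by
  have hc : Continuous fun s => 2 * ep * (c s).1 * deriv GG ((c s).1 ^ 2 + (c s).2 ^ 2) :=
    (continuous_const.mul (hcont1 h)).mul (deriv_GG_contDiff.continuous.comp (hcontq h))
  have hep : (0 : ℝ) < ep := by unfold ep; norm_num
  have h1 : 0 < ∫ s in (0 : ℝ)..T, -(c 0).1 *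
      (2 * ep * (c s).1 * deriv GG ((c s).1 ^ 2 + (c s).2 ^ 2)) := by
    refine intervalIntegral.integral_pos h.pos (continuous_const.mul hc).continuousOn ?_ ?_
    · intro s _
      have p1 := fst_pos h s
      have p2 := deriv_GG_nonpos ((c s).1 ^ 2 + (c s).2 ^ 2)
      have : -(c 0).1 * (2 * ep * (c s).1 * deriv GG ((c s).1 ^ 2 + (c s).2 ^ 2)) =
        (2 * ep) * ((c 0).1 * (c s).1) * (-deriv GG ((c s).1 ^ 2 + (c s).2 ^ 2)) := by ring
      rw [this]
      have : 0 ≤ -deriv GG ((c s).1 ^ 2 + (c s).2 ^ 2) := by linarith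
      positivity
    · obtain ⟨t, ht, ht'⟩ := crossing h
      refine ⟨t, ht, ?_⟩
      have p1 := fst_pos h t
      rw [ht']
      have p2 := deriv_GG_neg
      have : -(c 0).1 * (2 * ep * (c t).1 * deriv GG (1 / 3)) =
        (2 * ep) * ((c 0).1 * (c t).1) * (-deriv GG (1 / 3)) := by ring
      rw [this]
      have : 0 < -deriv GG (1 / 3) := by linarith
      positivity
  rw [intervalIntegral.integral_const_mul] at h1
  intro h2
  rw [h2] at h1
  simp at h1

end loop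

/-! ### Lipschitz dependence -/

lemma exists_lip {F : Type*} [NormedAddCommGroup F] [NormedSpace ℝ F] {f : R2 → F}
    (hf : ContDiff ℝ ∞ f) : ∃ K : ℝ≥0, LipschitzOnWith K f (Metric.closedBall (0 : R2) 1) :=
  hf.contDiffOn.exists_lipschitzOnWith (by simp) (convex_closedBall _ _)
    (isCompact_closedBall _ _)

lemma exists_bound {F : Type*} [NormedAddCommGroup F] [NormedSpace ℝ F] {f : R2 → F}
    (hf : ContDiff ℝ ∞ f) : ∃ C : ℝ, 0 ≤ C ∧ ∀ v ∈ Metric.closedBall (0 : R2) 1, ‖f v‖ ≤ C := by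
  obtain ⟨C, hC⟩ := (isCompact_closedBall (0 : R2) 1).exists_bound_of_continuousOn
    hf.continuous.continuousOn
  exact ⟨max C 0, le_max_right _ _, fun v hv => (hC v hv).trans (le_max_left _ _)⟩

lemma dist_start {c c' : ℝ → R2} {T T' : ℝ} (h : Loop c T) (h' : Loop c' T') :
    dist (c 0) (c' 0) = |(c 0).1 - (c' 0).1| := by
  rw [Prod.dist_eq, h.axis, h'.axis, dist_self, Real.dist_eq]
  exact max_eq_left (abs_nonneg _)

lemma exists_gronwall : ∃ K : ℝ, 0 ≤ K ∧ ∀ (c c' : ℝ → R2) (T T' : ℝ), Loop c T → Loop c' T' →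
    ∀ s, 0 ≤ s → dist (c s) (c' s) ≤ |(c 0).1 - (c' 0).1| * exp (K * s) := by
  obtain ⟨K, hK⟩ := exists_lip Yh_contDiff
  refine ⟨K, K.2, fun c c' T T' h h' s hs => ?_⟩
  have := dist_le_of_trajectories_ODE_of_mem (a := 0) (b := s) (v := fun _ => Yh)
    (s := fun _ => Metric.closedBall (0 : R2) 1) (K := K) (f := c) (g := c')
    (δ := |(c 0).1 - (c' 0).1|)
    (fun _ _ => hK) (hcont h).continuousOn (fun t _ => (h.deriv t).hasDerivWithinAt)
    (fun t _ => mem_ball h t) (hcont h').continuousOn (fun t _ => (h'.deriv t).hasDerivWithinAt)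
    (fun t _ => mem_ball h' t) (dist_start h h').le s ⟨hs, le_rfl⟩
  simpa using this

lemma int_lip (F : R2 → ℝ) (hF : ContDiff ℝ ∞ F) (M : ℝ) : ∃ C : ℝ, 0 ≤ C ∧
    ∀ (c c' : ℝ → R2) (T T' : ℝ), Loop c T → Loop c' T' → T ≤ M →
      |(∫ s in (0 : ℝ)..T, F (c s)) - ∫ s in (0 : ℝ)..T', F (c' s)| ≤
        C * max |(c 0).1 - (c' 0).1| |T - T'| := by
  obtain ⟨K, hK0, hK⟩ := exists_gronwall
  obtain ⟨L, hL⟩ := exists_lip hF
  obtain ⟨B, hB0, hB⟩ := exists_bound hF
  refine ⟨L * exp (K * M) * |M| + B, by positivity, fun c c' T T' h h' hTM => ?_⟩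
  have hT := h.pos
  have i1 : ∀ a b, IntervalIntegrable (fun s => F (c s)) volume a b := fun a b =>
    (hF.continuous.comp (hcont h)).intervalIntegrable a b
  have i2 : ∀ a b, IntervalIntegrable (fun s => F (c' s)) volume a b := fun a b =>
    (hF.continuous.comp (hcont h')).intervalIntegrable a b
  have e1 : (∫ s in (0 : ℝ)..T, F (c s)) - ∫ s in (0 : ℝ)..T', F (c' s) =
      (∫ s in (0 : ℝ)..T, (F (c s) - F (c' s))) + ∫ s in T'..T, F (c' s) := by
    rw [intervalIntegral.integral_sub (i1 _ _) (i2 _ _)]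
    have := intervalIntegral.integral_add_adjacent_intervals (i2 0 T') (i2 T' T)
    linarith
  have b1 : ‖∫ s in (0 : ℝ)..T, (F (c s) - F (c' s))‖ ≤
      (L * (|(c 0).1 - (c' 0).1| * exp (K * M))) * |T - 0| := by
    apply intervalIntegral.norm_integral_le_of_norm_le_const
    intro s hs
    rw [uIoc_of_le hT.le] at hs
    have a1 := hL.dist_le_mul (c s) (mem_ball h s) (c' s) (mem_ball h' s)
    rw [← Real.dist_eq]
    refine a1.trans ?_
    have a2 := hK c c' T T' h h' s hs.1.le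
    have a3 : exp (K * s) ≤ exp (K * M) := by
      apply exp_le_exp.2
      apply mul_le_mul_of_nonneg_left _ hK0
      linarith [hs.2]
    have a4 : (0 : ℝ) ≤ L := L.2
    refine mul_le_mul_of_nonneg_left ?_ a4
    exact a2.trans (mul_le_mul_of_nonneg_left a3 (abs_nonneg _))
  have b2 : ‖∫ s in T'..T, F (c' s)‖ ≤ B * |T - T'| := by
    apply intervalIntegral.norm_integral_le_of_norm_le_const
    intro s _
    exact hB _ (mem_ball h' s)
  rw [e1]
  have m1 : |(c 0).1 - (c' 0).1| ≤ max |(c 0).1 - (c' 0).1| |T - T'| := le_max_left _ _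
  have m2 : |T - T'| ≤ max |(c 0).1 - (c' 0).1| |T - T'| := le_max_right _ _
  have m3 : |T - 0| ≤ |M| := by
    rw [sub_zero, abs_of_pos hT]
    exact hTM.trans (le_abs_self _)
  have hL0 : (0 : ℝ) ≤ L := L.2
  calc |(∫ s in (0 : ℝ)..T, (F (c s) - F (c' s))) + ∫ s in T'..T, F (c' s)|
      ≤ |∫ s in (0 : ℝ)..T, (F (c s) - F (c' s))| + |∫ s in T'..T, F (c' s)| := abs_add_le _ _
    _ ≤ (L * (|(c 0).1 - (c' 0).1| * exp (K * M))) * |T - 0| + B * |T - T'| := add_le_add b1 b2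
    _ ≤ (L * (max |(c 0).1 - (c' 0).1| |T - T'| * exp (K * M))) * |M| +
        B * max |(c 0).1 - (c' 0).1| |T - T'| := by gcongr
    _ = _ := by ring

/-- away from the rest points, the period of a loop is locally a Lipschitz function -/
lemma local_graph {c0 : ℝ → R2} {T0 : ℝ} (h0 : Loop c0 T0) (hr : (c0 0).1 ^ 2 ≠ 1 / 3) :
    ∃ η > 0, ∃ C : ℝ, 0 ≤ C ∧ ∀ (c c' : ℝ → R2) (T T' : ℝ), Loop c T → Loop c' T' →
      |T - T0| < η → |(c' 0).1 - (c0 0).1| < η → |T' - T0| < η →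
        |T - T'| ≤ C * |(c 0).1 - (c' 0).1| := by
  obtain ⟨K, hK0, hK⟩ := exists_gronwall
  obtain ⟨B, hB0, hB⟩ := exists_bound Yh_contDiff
  set x0 := (c0 0).1 with hx0
  set v0 : ℝ := ep * (3 * x0 ^ 2 - 1) with hv0
  have hv0' : v0 ≠ 0 := by
    rw [hv0]
    apply mul_ne_zero
    · unfold ep
      norm_num
    · intro h
      apply hr
      linarith
  have hv : 0 < |v0| := abs_pos.2 hv0'
  have hYc : Continuous fun v : R2 => (Yh v).2 := continuous_snd.comp Yh_contDiff.continuous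
  have hY0 : (Yh (x0, 0)).2 = v0 := by
    rw [Yh_core]
    · simp only [hv0]
      ring
    · have := h0.lt
      simp only
      linarith
  obtain ⟨r, hr0, hrr⟩ := Metric.continuousAt_iff.1 (hYc.continuousAt (x := ((x0, 0) : R2)))
    (|v0| / 2) (by positivity)
  set η : ℝ := min 1 (r / (2 * B + 2)) with hη
  have hη0 : 0 < η := lt_min one_pos (by positivity)
  refine ⟨η, hη0, 2 / |v0| * exp (K * (T0 + 1)), by positivity, ?_⟩
  intro c c' T T' h h' hT hx' hT'
  have hTT : |T - T'| < 2 * η := by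
    have : T - T' = (T - T0) - (T' - T0) := by ring
    rw [this]
    calc |(T - T0) - (T' - T0)| ≤ |T - T0| + |T' - T0| := abs_sub _ _
      _ < 2 * η := by linarith
  -- positions between the two times
  have hpos : ∀ s ∈ uIcc T' T, dist (c' s) (x0, 0) < r := by
    intro s hs
    have a1 : ‖c' s - c' T'‖ ≤ B * ‖s - T'‖ := by
      refine Convex.norm_image_sub_le_of_norm_hasDerivWithin_le (s := univ)
        (f' := fun s => Yh (c' s)) (fun u _ => (h'.deriv u).hasDerivWithinAt)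
        (fun u _ => hB _ (mem_ball h' u)) convex_univ (mem_univ _) (mem_univ _)
    have a2 : ‖s - T'‖ ≤ |T - T'| := by
      rw [Real.norm_eq_abs]
      exact abs_sub_left_of_mem_uIcc hs
    have a3 : dist (c' T') (x0, 0) < η := by
      rw [h'.closed, Prod.dist_eq, h'.axis, dist_self, Real.dist_eq]
      rw [max_eq_left (abs_nonneg _)]
      exact hx'
    have a4 : η ≤ r / (2 * B + 2) := min_le_right _ _
    have a5 : η * (2 * B + 2) ≤ r := by
      rwa [le_div_iff₀ (by positivity)] at a4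
    calc dist (c' s) (x0, 0) ≤ dist (c' s) (c' T') + dist (c' T') (x0, 0) := dist_triangle _ _ _
      _ < B * (2 * η) + η := by
        rw [dist_eq_norm (c' s)]
        have : B * ‖s - T'‖ ≤ B * (2 * η) := mul_le_mul_of_nonneg_left (a2.trans hTT.le) hB0
        linarith
      _ ≤ r := by nlinarith
  have hmv : ‖((c' T).2 - v0 * T) - ((c' T').2 - v0 * T')‖ ≤ |v0| / 2 * ‖T - T'‖ := by
    refine Convex.norm_image_sub_le_of_norm_hasDerivWithin_le (s := uIcc T' T)
      (f := fun s => (c' s).2 - v0 * s) (f' := fun s => (Yh (c' s)).2 - v0) (fun u _ => ?_)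
      (fun u hu => ?_) (convex_uIcc _ _) left_mem_uIcc right_mem_uIcc
    · refine ((hsnd h' u).sub ?_).hasDerivWithinAt
      simpa using (hasDerivAt_id u).const_mul v0
    · have := hrr (hpos u hu)
      rw [hY0, Real.dist_eq] at this
      exact this.le
  have e0 : (c' T').2 = 0 := by rw [h'.closed, h'.axis]
  have e1 : (c T).2 = 0 := by rw [h.closed, h.axis]
  have g1 : |(c' T).2| ≤ |(c 0).1 - (c' 0).1| * exp (K * (T0 + 1)) := by
    have a1 := hK c c' T T' h h' T h.pos.le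
    have a2 : |(c' T).2| ≤ dist (c T) (c' T) := by
      rw [Prod.dist_eq, e1]
      refine le_max_of_le_right ?_
      rw [Real.dist_eq, zero_sub, abs_neg]
    refine a2.trans (a1.trans ?_)
    have a3 : T ≤ T0 + 1 := by
      have := (abs_lt.1 hT).2
      have : η ≤ 1 := min_le_left _ _
      linarith
    gcongr
  rw [e0, Real.norm_eq_abs, Real.norm_eq_abs] at hmv
  have g2 : |v0| * |T - T'| ≤ |(c' T).2| + |v0| / 2 * |T - T'| := by
    have : v0 * (T - T') = (c' T).2 - ((c' T).2 - v0 * T - (0 - v0 * T')) := by ring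
    rw [← abs_mul, this]
    exact (abs_sub _ _).trans (by linarith)
  have g3 : |v0| / 2 * |T - T'| ≤ |(c 0).1 - (c' 0).1| * exp (K * (T0 + 1)) := by linarith
  have g4 : |T - T'| = 2 / |v0| * (|v0| / 2 * |T - T'|) := by
    field_simp
  rw [g4]
  calc 2 / |v0| * (|v0| / 2 * |T - T'|)
      ≤ 2 / |v0| * (|(c 0).1 - (c' 0).1| * exp (K * (T0 + 1))) := by gcongr
    _ = _ := by ring

/-! ### the set of loops has dimension one -/

/-- starting points and periods of loops -/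
def Z : Set R2 := {p | ∃ c, Loop c p.2 ∧ (c 0).1 = p.1}

lemma dimH_line (a : ℝ) : dimH {p : R2 | p.1 = a} ≤ 1 := by
  have h1 : {p : R2 | p.1 = a} ⊆ (fun t : ℝ => ((a, t) : R2)) '' univ := by
    rintro ⟨x, t⟩ hx
    simp only [mem_ofPred_eq] at hx
    exact ⟨t, mem_univ _, by rw [hx]⟩
  have h2 : LipschitzWith 1 (fun t : ℝ => ((a, t) : R2)) := LipschitzWith.prodMk_left a
  calc dimH {p : R2 | p.1 = a} ≤ dimH ((fun t : ℝ => ((a, t) : R2)) '' univ) := dimH_mono h1
    _ ≤ dimH (univ : Set ℝ) := h2.dimH_image_le univ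
    _ = 1 := Real.dimH_univ

lemma dimH_of_antilip {X : Type*} [MetricSpace X] {t : Set X} (g : X → ℝ) (C : ℝ) (hC : 0 ≤ C)
    (h : ∀ p ∈ t, ∀ q ∈ t, dist p q ≤ C * |g p - g q|) : dimH t ≤ 1 := by
  have h1 : AntilipschitzWith ⟨C, hC⟩ (fun p : t => g p) := by
    apply AntilipschitzWith.of_le_mul_dist
    intro p q
    rw [Real.dist_eq]
    exact h p p.2 q q.2
  have h2 : dimH t = dimH (univ : Set t) := by
    have := (isometry_subtype_coe (s := t)).dimH_image univ
    rw [← this]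
    simp
  rw [h2]
  calc dimH (univ : Set t) ≤ dimH ((fun p : t => g p) '' univ) := h1.le_dimH_image univ
    _ ≤ dimH (univ : Set ℝ) := dimH_mono (subset_univ _)
    _ = 1 := Real.dimH_univ

lemma dimH_Z : dimH Z ≤ 1 := by
  set a : ℝ := √(1 / 3) with ha
  have hsub : Z ⊆ {p | p ∈ Z ∧ p.1 ^ 2 ≠ 1 / 3} ∪ ({p : R2 | p.1 = a} ∪ {p : R2 | p.1 = -a}) := by
    intro p hp
    by_cases h : p.1 ^ 2 = 1 / 3
    · right
      have h1 : p.1 ^ 2 = a ^ 2 := by rw [h, ha, Real.sq_sqrt (by norm_num)]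
      rcases sq_eq_sq_iff_eq_or_eq_neg.1 h1 with h2 | h2
      · exact Or.inl h2
      · exact Or.inr h2
    · exact Or.inl ⟨hp, h⟩
  refine (dimH_mono hsub).trans ?_
  rw [dimH_union, dimH_union]
  refine max_le ?_ (max_le (dimH_line _) (dimH_line _))
  by_contra hcon
  push Not at hcon
  obtain ⟨p, ⟨⟨c0, h0, hx0⟩, hpr⟩, hp⟩ := exists_mem_nhdsWithin_lt_dimH_of_lt_dimH hcon
  rw [← hx0] at hpr
  obtain ⟨η, hη, C, hC, H⟩ := local_graph h0 hpr
  have hmem : {p | p ∈ Z ∧ p.1 ^ 2 ≠ 1 / 3} ∩ Metric.ball p η ∈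
      𝓝[{p | p ∈ Z ∧ p.1 ^ 2 ≠ 1 / 3}] p :=
    inter_mem_nhdsWithin _ (Metric.ball_mem_nhds p hη)
  have h1 := hp _ hmem
  refine absurd (dimH_of_antilip Prod.fst (max 1 C) (by positivity) ?_) (not_le.2 h1)
  rintro q ⟨⟨⟨c, hc, hcx⟩, _⟩, hq⟩ q' ⟨⟨⟨c', hc', hcx'⟩, _⟩, hq'⟩
  rw [Metric.mem_ball, Prod.dist_eq, max_lt_iff, Real.dist_eq, Real.dist_eq] at hq hq'
  have h2 := H c c' q.2 q'.2 hc hc' hq.2 (by rw [hcx', hx0]; exact hq'.1) hq'.2
  rw [hcx, hcx'] at h2
  rw [Prod.dist_eq, Real.dist_eq, Real.dist_eq]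
  refine max_le ?_ ?_
  · calc |q.1 - q'.1| = 1 * |q.1 - q'.1| := (one_mul _).symm
      _ ≤ max 1 C * |q.1 - q'.1| := by gcongr; exact le_max_left _ _
  · refine h2.trans ?_
    gcongr
    exact le_max_right _ _

/-- starting point and the two integrals of a loop -/
def dat (c : ℝ → R2) (T : ℝ) : ℝ × ℝ × ℝ :=
  ((c 0).1, ∫ s in (0 : ℝ)..T, 2 * π * ep * rr * GG ((c s).1 ^ 2 + (c s).2 ^ 2) * (Yh (c s)).2,
    ∫ s in (0 : ℝ)..T, 2 * ep * (c s).1 * deriv GG ((c s).1 ^ 2 + (c s).2 ^ 2))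

lemma dat_lip (M : ℝ) : ∃ C : ℝ, 0 ≤ C ∧ ∀ (c c' : ℝ → R2) (T T' : ℝ), Loop c T → Loop c' T' →
    T ≤ M → dist (dat c T) (dat c' T') ≤ C * max |(c 0).1 - (c' 0).1| |T - T'| := by
  have h3 : ContDiff ℝ ∞ (fun v : R2 => v.1 ^ 2 + v.2 ^ 2) :=
    (contDiff_fst.pow 2).add (contDiff_snd.pow 2)
  obtain ⟨C1, h10, h1⟩ := int_lip
    (fun v => 2 * π * ep * rr * GG (v.1 ^ 2 + v.2 ^ 2) * (Yh v).2)
    ((contDiff_const.mul (GG_contDiff.comp h3)).mul (contDiff_snd.comp Yh_contDiff)) M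
  obtain ⟨C2, h20, h2⟩ := int_lip
    (fun v => 2 * ep * v.1 * deriv GG (v.1 ^ 2 + v.2 ^ 2))
    ((contDiff_const.mul contDiff_fst).mul (deriv_GG_contDiff.comp h3)) M
  refine ⟨1 + C1 + C2, by positivity, fun c c' T T' h h' hT => ?_⟩
  have e1 := h1 c c' T T' h h' hT
  have e2 := h2 c c' T T' h h' hT
  set m := max |(c 0).1 - (c' 0).1| |T - T'| with hm
  have hm0 : 0 ≤ m := le_max_of_le_left (abs_nonneg _)
  have hm1 : |(c 0).1 - (c' 0).1| ≤ m := le_max_left _ _
  have k1 : 0 ≤ C1 * m := by positivity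
  have k2 : 0 ≤ C2 * m := by positivity
  unfold dat
  rw [Prod.dist_eq, Prod.dist_eq, Real.dist_eq, Real.dist_eq, Real.dist_eq]
  refine max_le ?_ (max_le ?_ ?_)
  · simp only
    linarith
  · simp only
    linarith
  · simp only
    linarith

/-- the set of all data of loops -/
def Dat : Set (ℝ × ℝ × ℝ) := {d | ∃ c T, Loop c T ∧ d = dat c T}

lemma dimH_Dat : dimH Dat ≤ 1 := by
  classical
  set g : R2 → ℝ × ℝ × ℝ := fun p => if h : p ∈ Z then dat h.choose p.2 else 0 with hg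
  have hg1 : ∀ (c : ℝ → R2) (T : ℝ), Loop c T → g ((c 0).1, T) = dat c T := by
    intro c T h
    have hz : ((c 0).1, T) ∈ Z := ⟨c, h, rfl⟩
    have h2 : g ((c 0).1, T) = dat hz.choose T := by
      simp only [hg]
      rw [dif_pos hz]
    rw [h2]
    obtain ⟨C, hC, H⟩ := dat_lip T
    have h3 := H hz.choose c T T hz.choose_spec.1 h le_rfl
    rw [hz.choose_spec.2] at h3
    simp only [sub_self, abs_zero, max_self, mul_zero] at h3
    exact dist_le_zero.1 h3
  have hsub : Dat ⊆ g '' Z := by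
    rintro d ⟨c, T, h, rfl⟩
    exact ⟨((c 0).1, T), ⟨c, h, rfl⟩, hg1 c T h⟩
  refine (dimH_mono hsub).trans (le_trans ?_ dimH_Z)
  apply dimH_image_le_of_locally_lipschitzOn
  rintro p hp
  obtain ⟨C, hC, H⟩ := dat_lip (p.2 + 1)
  refine ⟨⟨C, hC⟩, Z ∩ Metric.ball p 1,
    inter_mem_nhdsWithin _ (Metric.ball_mem_nhds p one_pos), ?_⟩
  apply LipschitzOnWith.of_dist_le_mul
  rintro q ⟨⟨c, hc, hcx⟩, hq⟩ q' ⟨⟨c', hc', hcx'⟩, hq'⟩
  have e1 : q = ((c 0).1, q.2) := by rw [hcx]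
  have e2 : q' = ((c' 0).1, q'.2) := by rw [hcx']
  have hT : q.2 ≤ p.2 + 1 := by
    rw [Metric.mem_ball, Prod.dist_eq, max_lt_iff, Real.dist_eq, Real.dist_eq] at hq
    have := (abs_lt.1 hq.2).2
    linarith
  have h3 := H c c' q.2 q'.2 hc hc' hT
  have h4 : dist q q' = max |(c 0).1 - (c' 0).1| |q.2 - q'.2| := by
    rw [Prod.dist_eq, Real.dist_eq, Real.dist_eq, hcx, hcx']
  rw [h4, e1, e2, hg1 c _ hc, hg1 c' _ hc']
  exact h3

/-- displacement as a function of the data -/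
def Psi (d : ℝ × ℝ × ℝ) : ℂ :=
  -(rr : ℂ) * Complex.exp (Complex.I * (om * (rr * d.1 * ff (d.1 ^ 2)) : ℝ)) *
    ((d.2.1 : ℂ) + Complex.I * (d.2.2 : ℂ))

lemma disp_eq (c : ℝ → R2) (T : ℝ) : disp c T = Psi (dat c T) := rfl

lemma Psi_ne {d : ℝ × ℝ × ℝ} (hd : d ∈ Dat) : Psi d ≠ 0 := by
  obtain ⟨c, T, h, rfl⟩ := hd
  have h1 := second_ne h
  unfold Psi
  refine mul_ne_zero (mul_ne_zero ?_ (Complex.exp_ne_zero _)) ?_
  · unfold rr
    norm_num
  · intro h2
    have h3 := congrArg Complex.im h2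
    simp [dat] at h3
    exact h1 h3

lemma Psi_contDiff : ContDiff ℝ ∞ Psi := by
  unfold Psi
  have h0 : ContDiff ℝ ∞ (fun d : ℝ × ℝ × ℝ => d.1) := contDiff_fst
  have h1 : ContDiff ℝ ∞ (fun d : ℝ × ℝ × ℝ => d.2.1) := contDiff_fst.comp contDiff_snd
  have h2 : ContDiff ℝ ∞ (fun d : ℝ × ℝ × ℝ => d.2.2) := contDiff_snd.comp contDiff_snd
  have h3 : ContDiff ℝ ∞ (fun d : ℝ × ℝ × ℝ => om * (rr * d.1 * ff (d.1 ^ 2))) :=
    contDiff_const.mul ((contDiff_const.mul h0).mul (ff_contDiff.comp (h0.pow 2)))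
  have hc : ContDiff ℝ ∞ (fun x : ℝ => (x : ℂ)) := Complex.ofRealCLM.contDiff
  have h4 : ContDiff ℝ ∞ (fun d : ℝ × ℝ × ℝ =>
      Complex.exp (Complex.I * (om * (rr * d.1 * ff (d.1 ^ 2)) : ℝ))) :=
    (contDiff_const.mul (hc.comp h3)).cexp
  exact (contDiff_const.mul h4).mul ((hc.comp h1).add (contDiff_const.mul (hc.comp h2)))

/-- the bad parameters -/
def Bad : Set ℂ := ⋃ mn : ℤ × ℤ, ((fun d => ((mn.1 : ℂ) + mn.2 * Complex.I) / Psi d) '' Dat ∪
  range (fun r : ℝ => (r : ℂ) * ((mn.2 : ℂ) - mn.1 * Complex.I)))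

lemma dimH_Bad : dimH Bad ≤ 1 := by
  unfold Bad
  rw [dimH_iUnion]
  refine iSup_le fun mn => ?_
  rw [dimH_union]
  refine max_le ?_ ?_
  · refine le_trans (dimH_image_le_of_locally_lipschitzOn ?_) dimH_Dat
    intro d hd
    have h0 : ContDiffAt ℝ 1 Psi d := (Psi_contDiff.of_le (by simp)).contDiffAt
    have h1 : ContDiffAt ℝ 1 (fun d => ((mn.1 : ℂ) + mn.2 * Complex.I) / Psi d) d := by
      simp only [div_eq_mul_inv]
      exact contDiffAt_const.mul (h0.inv (Psi_ne hd))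
    obtain ⟨K, t, ht, hK⟩ := h1.exists_lipschitzOnWith
    exact ⟨K, t, mem_nhdsWithin_of_mem_nhds ht, hK⟩
  · have h1 : ContDiff ℝ 1 (fun r : ℝ => (r : ℂ) * ((mn.2 : ℂ) - mn.1 * Complex.I)) := by
      have hc : ContDiff ℝ 1 (fun x : ℝ => (x : ℂ)) := Complex.ofRealCLM.contDiff
      exact hc.mul contDiff_const
    simpa using h1.dimH_range_le

lemma dense_Bad : Dense Badᶜ := by
  apply dense_compl_of_dimH_lt_finrank (E := ℂ)
  refine dimH_Bad.trans_lt ?_
  rw [Complex.finrank_real_complex]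
  norm_num

end Pool.Agent.Helper37.Engel

namespace Pool.Agent.Helper53.Engel

open Pool.Agent.Helper37.Engel

/-- Task H -/
theorem exists_generic (zt δ κs : ℝ) (hδ : 0 < δ) (hκ : 0 < κs) :
    ∃ z κ, |z - zt| < δ ∧ 0 < κ ∧ κ < κs ∧ Generic z κ := by
  -- base point
  set w0 : ℂ := (κs / 2 : ℝ) * Complex.exp (Complex.I * (om * zt : ℝ)) with hw0
  have hw0' : w0 ≠ 0 := by
    rw [hw0]
    refine mul_ne_zero ?_ (Complex.exp_ne_zero _)
    exact_mod_cast (by positivity : (κs / 2 : ℝ) ≠ 0)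
  have hom : 0 < om := by unfold om; positivity
  have hcont : ContinuousAt (fun w : ℂ => Complex.log (w / w0)) w0 := by
    have h1 : ContinuousAt (fun w : ℂ => w / w0) w0 := continuousAt_id.div_const _
    have h2 : ContinuousAt Complex.log ((fun w : ℂ => w / w0) w0) := by
      apply continuousAt_clog
      simp [div_self hw0']
    exact ContinuousAt.comp (g := Complex.log) h2 h1
  have hlim : Tendsto (fun w : ℂ => Complex.log (w / w0)) (𝓝 w0) (𝓝 0) := by
    have := hcont.tendsto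
    simpa [div_self hw0'] using this
  have hev : ∀ᶠ w in 𝓝 w0, ‖Complex.log (w / w0)‖ < min (Real.log 2) (om * δ) := by
    have h1 : 0 < min (Real.log 2) (om * δ) := lt_min (Real.log_pos (by norm_num)) (by positivity)
    have := (Metric.tendsto_nhds.1 hlim) _ h1
    simpa [dist_zero_right] using this
  have hev2 : ∀ᶠ w in 𝓝 w0, w ≠ 0 := isOpen_ne.mem_nhds hw0'
  obtain ⟨w, hw, hwB⟩ := mem_closure_iff_nhds.1 (dense_Bad w0) _ (hev.and hev2)
  obtain ⟨hw1, hw2⟩ := hw
  set L := Complex.log (w / w0) with hL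
  have hexpL : Complex.exp L = w / w0 := Complex.exp_log (div_ne_zero hw2 hw0')
  set z : ℝ := zt + L.im / om with hz
  set κ : ℝ := κs / 2 * Real.exp L.re with hκ'
  have hκ0 : 0 < κ := by positivity
  have hwz : (κ : ℂ) * Complex.exp (Complex.I * (om * z : ℝ)) = w := by
    have e1 : w = w0 * Complex.exp L := by
      rw [hexpL]
      field_simp
    have e2 : Complex.exp L = (Real.exp L.re : ℝ) * Complex.exp (Complex.I * (L.im : ℝ)) := by
      rw [Complex.ofReal_exp, ← Complex.exp_add]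
      congr 1
      conv_lhs => rw [← Complex.re_add_im L]
      ring
    have e3 : om * z = om * zt + L.im := by
      rw [hz]
      field_simp
    rw [e1, e2, hw0, e3, hκ']
    push_cast
    rw [mul_add, Complex.exp_add]
    ring
  refine ⟨z, κ, ?_, hκ0, ?_, ?_, ?_⟩
  · have h1 : |L.im| < om * δ :=
      (Complex.abs_im_le_norm L).trans_lt (hw1.trans_le (min_le_right _ _))
    have h2 : z - zt = L.im / om := by rw [hz]; ring
    rw [h2, abs_div, abs_of_pos hom, div_lt_iff₀ hom]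
    linarith
  · have h1 : L.re < Real.log 2 :=
      (le_abs_self _).trans_lt
        ((Complex.abs_re_le_norm L).trans_lt (hw1.trans_le (min_le_left _ _)))
    have h2 : Real.exp L.re < 2 := by
      calc Real.exp L.re < Real.exp (Real.log 2) := Real.exp_lt_exp.2 h1
        _ = 2 := Real.exp_log (by norm_num)
    rw [hκ']
    nlinarith
  · intro c T h m n heq
    rw [hwz] at heq
    have hd : dat c T ∈ Dat := ⟨c, T, h, rfl⟩
    have hne := Psi_ne hd
    apply hwB
    refine mem_iUnion.2 ⟨(m, n), Or.inl ⟨dat c T, hd, ?_⟩⟩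
    simp only
    rw [disp_eq] at heq
    rw [← heq]
    field_simp
  · rintro t ht m n ⟨h1, h2⟩
    apply hwB
    refine mem_iUnion.2 ⟨(m, n), Or.inr ⟨κ / t, ?_⟩⟩
    simp only
    rw [← hwz]
    have ht' : (t : ℂ) ≠ 0 := by exact_mod_cast ht
    have e1 : Complex.exp (Complex.I * (om * z : ℝ)) = (Real.cos (om * z) : ℂ) +
        (Real.sin (om * z) : ℂ) * Complex.I := by
      rw [mul_comm Complex.I, Complex.exp_mul_I, Complex.ofReal_cos, Complex.ofReal_sin]
    have e2 : (m : ℂ) = -((t : ℂ) * (Real.sin (om * z) : ℂ)) := by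
      have := congrArg (fun r : ℝ => (r : ℂ)) h1
      simp only [Complex.ofReal_neg, Complex.ofReal_mul, Complex.ofReal_intCast] at this
      exact this.symm
    have e3 : (n : ℂ) = (t : ℂ) * (Real.cos (om * z) : ℂ) := by
      have := congrArg (fun r : ℝ => (r : ℂ)) h2
      simp only [Complex.ofReal_mul, Complex.ofReal_intCast] at this
      exact this.symm
    rw [e1, e2, e3]
    push_cast
    field_simp
    ring

end Pool.Agent.Helper53.Engel
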